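import Pool.Agent.P.MP_845aff_co.Main

namespace Pool.Agent.Results.MP_845aff_co.Polynomial

open Pool.Agent.P.MP_845aff_co Filter

theorem result : ∃ c : ℕ,
    (fun Δ : ℕ => Real.log (((Δ : ℝ) + 2) ^ c)) =o[atTop] (fun Δ : ℕ => (Δ : ℝ)) ∧
    ∀ (V : Type) [Fintype V] (G : SimpleGraph V) (Δ : ℕ),
      (∀ v, (G.neighborSet v).ncard ≤ Δ) → TwoOuterplanar G →
      ∃ p : V → ℝ × ℝ, StraightLine G p ∧ (slopes G p).Finite ∧
        ((slopes G p).ncard : ℝ) ≤ ((Δ : ℝ) + 2) ^ c := by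
  refine ⟨19076, ?_, fun V _ G Δ hΔ h => ?_⟩
  · simp only [Real.log_pow]
    refine Asymptotics.IsLittleO.const_mul_left ?_ _
    have h1 : Tendsto (fun Δ : ℕ => (Δ : ℝ) + 2) atTop atTop :=
      tendsto_atTop_add_const_right _ _ tendsto_natCast_atTop_atTop
    refine (Real.isLittleO_log_id_atTop.comp_tendsto h1).trans_isBigO ?_
    refine Asymptotics.IsBigO.of_bound 3 ?_
    filter_upwards [eventually_ge_atTop 1] with n hn
    have : (1 : ℝ) ≤ n := by exact_mod_cast hn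
    simp only [Function.comp, id, Real.norm_eq_abs]
    rw [abs_of_nonneg (by linarith), abs_of_nonneg (by linarith)]
    linarith
  · obtain ⟨p, h1, h2⟩ := main G Δ hΔ h
    refine ⟨p, h1, ?_, by exact_mod_cast h2⟩
    refine (Set.finite_range fun e : V × V => slope (p e.1) (p e.2)).subset ?_
    rintro m ⟨u, v, -, rfl⟩
    exact ⟨(u, v), rfl⟩

end Pool.Agent.Results.MP_845aff_co.Polynomial
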