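import Pool.Agent.P.MP_845aff_co.TW.Main

namespace Pool.Agent.Results.MP_845aff_co.Treewidth

open Pool.Agent.P.MP_845aff_co

theorem result : ∃ c : ℕ, ∀ (t : ℕ) (V : Type) [Fintype V] (G : SimpleGraph V) (Δ : ℕ),
    (∀ v, (G.neighborSet v).ncard ≤ Δ) → Nonempty (Drawing G) → TW.TreewidthLE G t →
    ∃ p : V → ℝ × ℝ, StraightLine G p ∧ (slopes G p).Finite ∧
      (slopes G p).ncard ≤ (Δ + 2) ^ (c * (t + 1) ^ 2) := by
  refine ⟨722880, fun t V _ G Δ hΔ ⟨P⟩ h => ?_⟩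
  obtain ⟨p, h1, h2⟩ := TW.main G t Δ hΔ P h
  refine ⟨p, h1, ?_, h2⟩
  refine (Set.finite_range fun e : V × V => slope (p e.1) (p e.2)).subset ?_
  rintro m ⟨u, v, -, rfl⟩
  exact ⟨(u, v), rfl⟩

end Pool.Agent.Results.MP_845aff_co.Treewidth
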